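import Pool.Agent.H60.SFb

set_option autoImplicit false

namespace Pool.Agent.Results.MP_3b8abe_co.Classify

open Pool.Agent.H60.SF

theorem result (S : Type) [Semigroup S] :
    (Prop1 S ∧ Prop2 S) ↔
      ((∃ y : S, {p : S × S | p.1 * p.2 = y}.Infinite) ∧
        (∀ (x : S) (a b : ℕ → S), Function.Injective a → Function.Injective b →
          ¬ ∀ k, a k * b k = x) ∧
        (∀ a x : S, {b | a * b = x}.Infinite → x = a * a) ∧
        (∀ a x : S, {b | b * a = x}.Infinite → x = a * a)) := by
  constructor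
  · exact fun h => ⟨prop1_iff.mp h.1, cond1 (sun_of h.2), cond2 (sun_of h.2), cond3 (sun_of h.2)⟩
  · rintro ⟨⟨y, hy⟩, c1, c2, c3⟩
    have : Infinite S := by
      by_contra hc
      have : Finite S := not_infinite_iff_finite.mp hc
      exact hy (Set.toFinite _)
    exact ⟨prop1_iff.mpr ⟨y, hy⟩, prop2_of (sun_of_cond c1 c2 c3)⟩

end Pool.Agent.Results.MP_3b8abe_co.Classify
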